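import Mathlib

/-!
# MP_d84bc5_an: packing-covering constants of `ℓ₁ ⊕₂ ℝ` and `ℓ₁ ⊕₂ ℓ₂`

`γ(ℓ₁ ⊕₂ ℝ) = γ*(ℓ₁ ⊕₂ ℝ) = 2/√3`, and
`2/√3 ≤ γ(ℓ₁ ⊕₂ ℓ₂) ≤ γ*(ℓ₁ ⊕₂ ℓ₂) ≤ √((5-√5)/2) ≈ 1.1756`.

Lower bound: given a 2-separated `ρ`-dense `D` with `ρ < R < 2/√3`, take `d₀ ∈ D`, a point
`f ∈ D` covering `d₀ + (0, R y)` (`‖y‖ = 1`), and by the intermediate value theorem a point
`q = d₀ + (t eₙ, h y)` on the sphere of radius `R` around `d₀` which is (almost) at distance `R`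
from `f`, `n` being so large that `eₙ` is almost disjoint from `f - d₀`.  The point `d ∈ D`
covering `q` is a third point, and folding the `ℓ₁`-coordinate to the line gives three points of
`ℝ ⊕₂ Y` in a ball of radius `R` with pairwise distances `≥ 2`, which forces `12 ≤ 9R²`.

Upper bound: recursive construction of a subgroup, adding one generator per step that uses a new
coordinate of `ℓ₁`.
-/

open scoped ENNReal
open WithLp Filter Topology

namespace Pool.Agent.Results.MP_d84bc5_an.PackingCovering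

/-- The real sequence space `ℓ₁`. -/
abbrev L1 : Type := lp (fun _ : ℕ => ℝ) 1

/-- The real sequence space `ℓ₂`. -/
abbrev L2 : Type := lp (fun _ : ℕ => ℝ) 2

/-- `D` is 2-separated. -/
def Separated {X : Type*} [NormedAddCommGroup X] (D : Set X) : Prop :=
  ∀ d ∈ D, ∀ d' ∈ D, d ≠ d' → 2 ≤ ‖d - d'‖

/-- `D` is ρ-dense. -/
def DenseAt {X : Type*} [NormedAddCommGroup X] (ρ : ℝ) (D : Set X) : Prop :=
  ∀ x : X, ∃ d ∈ D, ‖x - d‖ ≤ ρ

/-- The simultaneous packing and covering constant `γ(X)`. -/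
noncomputable def gamma (X : Type*) [NormedAddCommGroup X] : ℝ :=
  sInf {ρ : ℝ | ∃ D : Set X, Separated D ∧ DenseAt ρ D}

/-- The lattice version `γ*(X)`: only additive subgroups are allowed. -/
noncomputable def gammaStar (X : Type*) [NormedAddCommGroup X] : ℝ :=
  sInf {ρ : ℝ | ∃ D : AddSubgroup X, Separated (D : Set X) ∧ DenseAt ρ (D : Set X)}

lemma hasSum_abs (b : L1) : HasSum (fun i => |b i|) ‖b‖ := by
  have h := lp.hasSum_norm (p := 1) (by norm_num) b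
  simpa using h

lemma norm_sub_single (b : L1) (n : ℕ) (t : ℝ) :
    ‖b - lp.single 1 n t‖ = |b n - t| - |b n| + ‖b‖ := by
  have h1 := hasSum_abs (b - lp.single 1 n t)
  have h2 := (hasSum_abs b).update n |b n - t|
  have h3 : (fun i => |(b - lp.single 1 n t : L1) i|) =
      Function.update (fun i => |b i|) n |b n - t| := by
    ext i
    by_cases hi : i = n
    · subst hi
      simp
    · simp [Function.update_of_ne hi, Pi.single_eq_of_ne hi]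
  rw [h3] at h1
  exact h1.unique h2

lemma norm_add_single (b : L1) (n : ℕ) (t : ℝ) (hb : b n = 0) :
    ‖b + lp.single 1 n t‖ = ‖b‖ + |t| := by
  have h := norm_sub_single b n (-t)
  rw [lp.single_neg, sub_neg_eq_add] at h
  rw [h, hb]
  simp
  ring

lemma tendsto_coord (b : L1) : Tendsto (fun n => b n) atTop (𝓝 0) := by
  have h := (hasSum_abs b).summable.tendsto_atTop_zero
  exact (tendsto_zero_iff_abs_tendsto_zero _).2 h

/-- If three points of a ball of squared radius `K` are pairwise `≥ 2` apart then `12 ≤ 9K`. -/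
lemma three_points {Y : Type*} [NormedAddCommGroup Y] [InnerProductSpace ℝ Y]
    (p q r : ℝ) (P Q S : Y) (K : ℝ)
    (h1 : p ^ 2 + ‖P‖ ^ 2 ≤ K) (h2 : q ^ 2 + ‖Q‖ ^ 2 ≤ K) (h3 : r ^ 2 + ‖S‖ ^ 2 ≤ K)
    (h4 : 4 ≤ (p - q) ^ 2 + ‖P - Q‖ ^ 2) (h5 : 4 ≤ (p - r) ^ 2 + ‖P - S‖ ^ 2)
    (h6 : 4 ≤ (q - r) ^ 2 + ‖Q - S‖ ^ 2) : 12 ≤ 9 * K := by
  have e1 := norm_sub_sq_real P Q
  have e2 := norm_sub_sq_real P S
  have e3 := norm_sub_sq_real Q S
  have e4 : ‖P + Q + S‖ ^ 2 = ‖P‖ ^ 2 + ‖Q‖ ^ 2 + ‖S‖ ^ 2 + 2 * inner ℝ P Q + 2 * inner ℝ P S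
      + 2 * inner ℝ Q S := by
    rw [norm_add_sq_real, norm_add_sq_real, inner_add_left]; ring
  have e5 : 0 ≤ ‖P + Q + S‖ ^ 2 := by positivity
  nlinarith [sq_nonneg (p + q + r)]


section separable

instance lpSeparable (p : ℝ≥0∞) [Fact (1 ≤ p)] [Fact (p ≠ ⊤)] :
    TopologicalSpace.SeparableSpace (lp (fun _ : ℕ => ℝ) p) := by
  rw [← TopologicalSpace.isSeparable_univ_iff]
  have h1 : (Set.univ : Set (lp (fun _ : ℕ => ℝ) p)) ⊆
      closure (Submodule.span ℝ (Set.range fun i : ℕ => (lp.single p i (1 : ℝ) :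
        lp (fun _ : ℕ => ℝ) p)) : Set (lp (fun _ : ℕ => ℝ) p)) := by
    intro f _
    have h2 := (lp.hasSum_single (E := fun _ : ℕ => ℝ) (p := p) (Fact.out) f)
    refine mem_closure_of_tendsto h2.tendsto_sum_nat (Eventually.of_forall fun n => ?_)
    refine Submodule.sum_mem _ fun i _ => ?_
    have e : (lp.single p i (f i) : lp (fun _ : ℕ => ℝ) p) = f i • lp.single p i (1 : ℝ) := by
      rw [← lp.single_smul, smul_eq_mul, mul_one]
    rw [e]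
    exact Submodule.smul_mem _ _ (Submodule.subset_span ⟨i, rfl⟩)
  refine TopologicalSpace.IsSeparable.mono ?_ h1
  apply TopologicalSpace.IsSeparable.closure
  exact (Set.countable_range _).isSeparable.span

instance : Fact ((1 : ℝ≥0∞) ≠ ⊤) := ⟨by norm_num⟩
instance : Fact ((2 : ℝ≥0∞) ≠ ⊤) := ⟨by norm_num⟩

instance prodSeparable {Y : Type*} [NormedAddCommGroup Y] [TopologicalSpace.SeparableSpace Y] :
    TopologicalSpace.SeparableSpace (WithLp 2 (L1 × Y)) :=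
  (WithLp.homeomorphProd 2 L1 Y).symm.surjective.denseRange.separableSpace
    (WithLp.homeomorphProd 2 L1 Y).symm.continuous

end separable


/-- The lower bound: a 2-separated `ρ`-dense subset of `ℓ₁ ⊕₂ Y` has `ρ ≥ 2/√3`. -/
theorem lower {Y : Type*} [NormedAddCommGroup Y] [InnerProductSpace ℝ Y] [Nontrivial Y]
    (D : Set (WithLp 2 (L1 × Y))) (ρ : ℝ) (hsep : Separated D) (hden : DenseAt ρ D) :
    2 / √3 ≤ ρ := by
  by_contra hlt
  push Not at hlt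
  have hρ0 : 0 ≤ ρ := by
    obtain ⟨d, -, hd⟩ := hden 0
    exact (norm_nonneg _).trans hd
  obtain ⟨R, hR1, hR2⟩ := exists_between hlt
  have hR0 : 0 < R := lt_of_le_of_lt hρ0 hR1
  have h3 : (2 / √3) ^ 2 = 4 / 3 := by
    rw [div_pow, Real.sq_sqrt (by norm_num)]; norm_num
  have hRsq : R ^ 2 < 4 / 3 := by
    rw [← h3]; exact pow_lt_pow_left₀ hR2 hR0.le (by norm_num)
  have hρR : ρ ^ 2 < R ^ 2 := pow_lt_pow_left₀ hR1 hρ0 (by norm_num)
  obtain ⟨d₀, hd₀, -⟩ := hden 0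
  obtain ⟨y, hy⟩ := exists_norm_eq Y zero_le_one
  -- the point above `d₀`
  obtain ⟨f, hf, hfd⟩ := hden (d₀ + toLp 2 ((0 : L1), R • y))
  set b : L1 := f.fst - d₀.fst with hb
  set z : Y := f.snd - d₀.snd with hz
  have nsq : ∀ x : WithLp 2 (L1 × Y), ‖x‖ ^ 2 = ‖x.fst‖ ^ 2 + ‖x.snd‖ ^ 2 :=
    fun x => WithLp.prod_norm_sq_eq_of_L2 x
  have hfne : f ≠ d₀ := by
    rintro rfl
    have h1 : ‖f + toLp 2 ((0 : L1), R • y) - f‖ ^ 2 = R ^ 2 := by
      rw [nsq]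
      simp [norm_smul, hy]
    have h2 := pow_le_pow_left₀ (norm_nonneg _) hfd 2
    linarith
  have hbz : 4 ≤ ‖b‖ ^ 2 + ‖z‖ ^ 2 := by
    have h1 := hsep f hf d₀ hd₀ hfne
    have h2 := pow_le_pow_left₀ (by norm_num) h1 2
    rw [nsq] at h2
    simp only [WithLp.sub_fst, WithLp.sub_snd] at h2
    rw [hb, hz]; linarith
  have hbz2 : ‖b‖ ^ 2 + ‖R • y - z‖ ^ 2 ≤ ρ ^ 2 := by
    have h2 := pow_le_pow_left₀ (norm_nonneg _) hfd 2
    rw [nsq] at h2
    have e1 : ‖(d₀ + toLp 2 ((0 : L1), R • y) - f).fst‖ = ‖b‖ := by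
      rw [← norm_neg]; congr 1
      simp [hb]
    have e2 : ‖(d₀ + toLp 2 ((0 : L1), R • y) - f).snd‖ = ‖R • y - z‖ := by
      congr 1
      simp [hz]; abel
    rwa [e1, e2] at h2
  -- intermediate value
  obtain ⟨t, ht, htF⟩ : ∃ t ∈ Set.Icc 0 R, (t + ‖b‖) ^ 2 + ‖√(R ^ 2 - t ^ 2) • y - z‖ ^ 2 = R ^ 2 := by
    have hc : ContinuousOn (fun t : ℝ => (t + ‖b‖) ^ 2 + ‖√(R ^ 2 - t ^ 2) • y - z‖ ^ 2)
        (Set.Icc 0 R) := by fun_prop
    have := intermediate_value_Icc hR0.le hc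
    apply this
    constructor
    · simp only [ne_eq, OfNat.ofNat_ne_zero, not_false_eq_true, zero_pow, sub_zero, zero_add]
      rw [Real.sqrt_sq hR0.le]
      linarith
    · simp only [sub_self, Real.sqrt_zero, zero_smul, zero_sub, norm_neg]
      nlinarith [norm_nonneg b]
  set h := √(R ^ 2 - t ^ 2) with hh
  have hh2 : t ^ 2 + h ^ 2 = R ^ 2 := by
    rw [hh, Real.sq_sqrt]
    · ring
    · nlinarith [ht.1, ht.2]
  have ht0 : 0 ≤ t := ht.1
  have hh0 : 0 ≤ h := Real.sqrt_nonneg _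
  -- choose `n` large
  obtain ⟨n, hn⟩ : ∃ n, ρ ^ 2 < ‖b - lp.single 1 n t‖ ^ 2 + ‖h • y - z‖ ^ 2 := by
    have h1 : Tendsto (fun n => (|b n - t| - |b n| + ‖b‖) ^ 2 + ‖h • y - z‖ ^ 2) atTop
        (𝓝 ((|0 - t| - |0| + ‖b‖) ^ 2 + ‖h • y - z‖ ^ 2)) := by
      have hb0 := tendsto_coord b
      exact (((hb0.sub_const t).abs.sub hb0.abs).add_const _ |>.pow 2).add_const _
    have h2 : (|0 - t| - |0| + ‖b‖) ^ 2 + ‖h • y - z‖ ^ 2 = R ^ 2 := by
      rw [← htF]; simp [abs_of_nonneg ht0]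
    rw [h2] at h1
    obtain ⟨n, hn⟩ := (h1.eventually (lt_mem_nhds hρR)).exists
    exact ⟨n, by rw [norm_sub_single]; exact hn⟩
  obtain ⟨d, hd, hdc⟩ := hden (d₀ + toLp 2 (lp.single 1 n t, h • y))
  set v : L1 := d₀.fst + lp.single 1 n t - d.fst with hv
  set w : Y := d₀.snd + h • y - d.snd with hw
  have hvw : ‖v‖ ^ 2 + ‖w‖ ^ 2 ≤ ρ ^ 2 := by
    have h2 := pow_le_pow_left₀ (norm_nonneg _) hdc 2
    rw [nsq] at h2
    simpa [hv, hw] using h2
  have hnt : ‖(lp.single 1 n t : L1)‖ = t := by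
    rw [lp.norm_single (by norm_num)]
    simp [abs_of_nonneg ht0]
  have hd1 : d ≠ d₀ := by
    rintro rfl
    have e1 : v = lp.single 1 n t := by rw [hv]; abel
    have e2 : w = h • y := by rw [hw]; abel
    rw [e1, e2, hnt, norm_smul, hy, Real.norm_of_nonneg hh0, mul_one, hh2] at hvw
    linarith
  have hd2 : d ≠ f := by
    rintro rfl
    have e1 : v = -(b - lp.single 1 n t) := by rw [hv, hb]; abel
    have e2 : w = h • y - z := by rw [hw, hz]; abel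
    rw [e1, e2, norm_neg] at hvw
    linarith
  have s1 : 4 ≤ (t + ‖v‖) ^ 2 + ‖h • y - w‖ ^ 2 := by
    have h1 := hsep d hd d₀ hd₀ hd1
    have h2 := pow_le_pow_left₀ (by norm_num) h1 2
    rw [nsq] at h2
    have e1 : (d - d₀).fst = lp.single 1 n t - v := by
      rw [hv]; simp only [WithLp.sub_fst]; abel
    have e2 : (d - d₀).snd = h • y - w := by
      rw [hw]; simp only [WithLp.sub_snd]; abel
    rw [e1, e2] at h2
    have h3 : ‖lp.single 1 n t - v‖ ≤ t + ‖v‖ := by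
      rw [← hnt]; simpa [hnt] using norm_sub_le (lp.single 1 n t : L1) v
    have h4 := pow_le_pow_left₀ (norm_nonneg _) h3 2
    linarith
  have s2 : 4 ≤ (t + ‖b‖ + ‖v‖) ^ 2 + ‖h • y - z - w‖ ^ 2 := by
    have h1 := hsep d hd f hf hd2
    have h2 := pow_le_pow_left₀ (by norm_num) h1 2
    rw [nsq] at h2
    have e1 : (d - f).fst = lp.single 1 n t - b - v := by
      rw [hv, hb]; simp only [WithLp.sub_fst]; abel
    have e2 : (d - f).snd = h • y - z - w := by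
      rw [hw, hz]; simp only [WithLp.sub_snd]; abel
    rw [e1, e2] at h2
    have h3 : ‖lp.single 1 n t - b - v‖ ≤ t + ‖b‖ + ‖v‖ := by
      have i1 := norm_sub_le (lp.single 1 n t - b : L1) v
      have i2 := norm_sub_le (lp.single 1 n t : L1) b
      rw [hnt] at i2
      linarith
    have h4 := pow_le_pow_left₀ (norm_nonneg _) h3 2
    linarith
  have hfin := three_points t (t + ‖b‖) (-‖v‖) (h • y) (h • y - z) w (R ^ 2)
    (by rw [norm_smul, hy, Real.norm_of_nonneg hh0, mul_one, hh2]) htF.le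
    (by rw [neg_sq]; linarith)
    (by
      have : h • y - (h • y - z) = z := by abel
      rw [this]; nlinarith)
    (by rw [sub_neg_eq_add]; exact s1)
    (by rw [sub_neg_eq_add]; exact s2)
  linarith


section machinery

variable {Y : Type*} [NormedAddCommGroup Y]

lemma nsq (x : WithLp 2 (L1 × Y)) : ‖x‖ ^ 2 = ‖x.fst‖ ^ 2 + ‖x.snd‖ ^ 2 :=
  WithLp.prod_norm_sq_eq_of_L2 x

/-- Points whose `ℓ₁`-part is supported in the coordinates `< k`. -/
def Vk (Y : Type*) [NormedAddCommGroup Y] (k : ℕ) : AddSubgroup (WithLp 2 (L1 × Y)) where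
  carrier := {x | ∀ i, k ≤ i → x.fst i = 0}
  zero_mem' := by intro i _; simp
  add_mem' := by
    intro a b ha hb i hi
    simp [ha i hi, hb i hi]
  neg_mem' := by
    intro a ha i hi
    simp [ha i hi]

lemma mem_Vk {k : ℕ} {x : WithLp 2 (L1 × Y)} : x ∈ Vk Y k ↔ ∀ i, k ≤ i → x.fst i = 0 := Iff.rfl

lemma Vk_mono {k l : ℕ} (h : k ≤ l) : Vk Y k ≤ Vk Y l :=
  fun _ hx i hi => hx i (h.trans hi)

/-- Truncation of the `ℓ₁`-part. -/
noncomputable def trunc (k : ℕ) (x : WithLp 2 (L1 × Y)) : WithLp 2 (L1 × Y) :=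
  toLp 2 (∑ i ∈ Finset.range k, lp.single 1 i (x.fst i), x.snd)

lemma trunc_mem (k : ℕ) (x : WithLp 2 (L1 × Y)) : trunc k x ∈ Vk Y k := by
  intro i hi
  simp only [trunc, WithLp.toLp_fst]
  rw [lp.coeFn_sum, Finset.sum_apply]
  apply Finset.sum_eq_zero
  intro j hj
  have : i ≠ j := by
    have := Finset.mem_range.1 hj; omega
  simp [Pi.single_eq_of_ne this]

lemma tendsto_trunc (x : WithLp 2 (L1 × Y)) :
    Tendsto (fun k => ‖x - trunc k x‖) atTop (𝓝 0) := by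
  have h1 : Tendsto (fun k => ∑ i ∈ Finset.range k, (lp.single 1 i (x.fst i) : L1)) atTop
      (𝓝 x.fst) := (lp.hasSum_single (by norm_num) x.fst).tendsto_sum_nat
  have h2 : Tendsto (fun k => ‖x.fst - ∑ i ∈ Finset.range k, (lp.single 1 i (x.fst i) : L1)‖) atTop
      (𝓝 0) := by
    have := (h1.const_sub x.fst).norm
    simpa using this
  refine h2.congr ?_
  intro k
  have e : ‖x - trunc k x‖ ^ 2 = ‖x.fst - ∑ i ∈ Finset.range k, (lp.single 1 i (x.fst i) : L1)‖ ^ 2 := by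
    rw [nsq]; simp [trunc]
  exact ((pow_left_inj₀ (norm_nonneg _) (norm_nonneg _) (by norm_num)).1 e).symm

/-- The generic recursion. -/
theorem recursion [TopologicalSpace.SeparableSpace (WithLp 2 (L1 × Y))] (ρ : ℝ)
    (Inv : AddSubgroup (WithLp 2 (L1 × Y)) → Prop)
    (G₀ : AddSubgroup (WithLp 2 (L1 × Y))) (hG₀ : Inv G₀) (hG₀V : G₀ ≤ Vk Y 0)
    (hInv : ∀ G, Inv G → ∀ g ∈ G, g ≠ 0 → 2 ≤ ‖g‖)
    (step : ∀ k G, Inv G → G ≤ Vk Y k → ∀ x ∈ Vk Y k, ∃ G', G ≤ G' ∧ Inv G' ∧ G' ≤ Vk Y (k + 1) ∧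
      ∃ y ∈ G', ‖x - y‖ ≤ ρ) :
    ∃ D : AddSubgroup (WithLp 2 (L1 × Y)), Separated (D : Set (WithLp 2 (L1 × Y))) ∧
      ∀ ε > 0, DenseAt (ρ + ε) (D : Set (WithLp 2 (L1 × Y))) := by
  classical
  obtain ⟨e, he⟩ := TopologicalSpace.exists_dense_seq (WithLp 2 (L1 × Y))
  let x : ℕ → WithLp 2 (L1 × Y) := fun k => trunc k (e (Nat.unpair k).1)
  have hx : ∀ k, x k ∈ Vk Y k := fun k => trunc_mem _ _
  let S : ℕ → Type _ := fun k => {G : AddSubgroup (WithLp 2 (L1 × Y)) // Inv G ∧ G ≤ Vk Y k}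
  let nxt : ∀ k, S k → S (k + 1) := fun k G =>
    ⟨(step k G.1 G.2.1 G.2.2 (x k) (hx k)).choose,
      (step k G.1 G.2.1 G.2.2 (x k) (hx k)).choose_spec.2.1,
      (step k G.1 G.2.1 G.2.2 (x k) (hx k)).choose_spec.2.2.1⟩
  let Gs : ∀ k, S k := fun k => Nat.rec (motive := S) ⟨G₀, hG₀, hG₀V⟩ nxt k
  let G : ℕ → AddSubgroup (WithLp 2 (L1 × Y)) := fun k => (Gs k).1
  have hle : ∀ k, G k ≤ G (k + 1) := fun k =>
    (step k (Gs k).1 (Gs k).2.1 (Gs k).2.2 (x k) (hx k)).choose_spec.1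
  have hcov : ∀ k, ∃ y ∈ G (k + 1), ‖x k - y‖ ≤ ρ := fun k =>
    (step k (Gs k).1 (Gs k).2.1 (Gs k).2.2 (x k) (hx k)).choose_spec.2.2.2
  have hmono : Monotone G := monotone_nat_of_le_succ hle
  have hmem : ∀ g, g ∈ (⨆ k, G k) ↔ ∃ k, g ∈ G k := fun g =>
    AddSubgroup.mem_iSup_of_directed hmono.directed_le
  refine ⟨⨆ k, G k, ?_, ?_⟩
  · intro d hd d' hd' hne
    have h1 : d - d' ∈ (⨆ k, G k) := sub_mem hd hd'
    obtain ⟨k, hk⟩ := (hmem _).1 h1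
    exact hInv (G k) (Gs k).2.1 _ hk (sub_ne_zero.2 hne)
  · intro ε hε z
    obtain ⟨j, hj⟩ : ∃ j, ‖z - e j‖ < ε / 2 := by
      obtain ⟨j, hj⟩ := he.exists_dist_lt z (half_pos hε)
      exact ⟨j, by rwa [dist_eq_norm] at hj⟩
    obtain ⟨N, hN⟩ := eventually_atTop.1
      ((tendsto_trunc (e j)).eventually (gt_mem_nhds (half_pos hε)))
    let k := Nat.pair j N
    have hk : N ≤ k := Nat.right_le_pair j N
    have hxk : x k = trunc k (e j) := by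
      simp [x, k]
    obtain ⟨y, hy, hxy⟩ := hcov k
    refine ⟨y, (hmem y).2 ⟨_, hy⟩, ?_⟩
    have h1 := hN k hk
    rw [hxk] at hxy
    have e1 : z - y = (z - e j) + (e j - trunc k (e j)) + (trunc k (e j) - y) := by abel
    rw [e1]
    have h2 := norm_add₃_le (a := z - e j) (b := e j - trunc k (e j)) (c := trunc k (e j) - y)
    linarith

/-- Adding one generator. -/
lemma add_gen (k : ℕ) (G : AddSubgroup (WithLp 2 (L1 × Y))) (hG : G ≤ Vk Y k) (κ τ : ℝ)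
    (hτ1 : 1 ≤ τ) (hκτ : κ ≤ 2 * τ)
    (hP : ∀ g ∈ G, g ≠ 0 → κ ≤ ‖g.fst‖ ∧ 2 ≤ ‖g‖)
    (a : L1) (ha : ∀ i, k ≤ i → a i = 0) (h : Y)
    (hg : ∀ y ∈ G, κ ≤ ‖(toLp 2 (a + lp.single 1 k τ, h) - y).fst‖ ∧
      2 ≤ ‖toLp 2 (a + lp.single 1 k τ, h) - y‖) :
    (∀ g ∈ G ⊔ AddSubgroup.zmultiples (toLp 2 (a + lp.single 1 k τ, h)), g ≠ 0 →
      κ ≤ ‖g.fst‖ ∧ 2 ≤ ‖g‖) ∧
    G ⊔ AddSubgroup.zmultiples (toLp 2 (a + lp.single 1 k τ, h)) ≤ Vk Y (k + 1) := by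
  set g₁ : WithLp 2 (L1 × Y) := toLp 2 (a + lp.single 1 k τ, h) with hg₁
  have hg₁V : g₁ ∈ Vk Y (k + 1) := by
    intro i hi
    have : i ≠ k := by omega
    simp [hg₁, ha i (by omega), Pi.single_eq_of_ne this]
  refine ⟨?_, sup_le (hG.trans (Vk_mono (by omega))) (by
    rw [AddSubgroup.zmultiples_le]; exact hg₁V)⟩
  intro g hgm hg0
  obtain ⟨y, hy, w, hw, rfl⟩ := AddSubgroup.mem_sup.1 hgm
  obtain ⟨m, rfl⟩ := AddSubgroup.mem_zmultiples_iff.1 hw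
  by_cases hm0 : m = 0
  · subst hm0
    simp only [zero_smul, add_zero] at hg0 ⊢
    exact hP y hy hg0
  by_cases hm1 : m = 1
  · subst hm1
    have := hg (-y) (neg_mem hy)
    rw [sub_neg_eq_add] at this
    simpa [add_comm] using this
  by_cases hm2 : m = -1
  · subst hm2
    have := hg y hy
    have e1 : y + (-1 : ℤ) • g₁ = -(g₁ - y) := by simp; abel
    rw [e1, norm_neg, WithLp.neg_fst, norm_neg]
    exact this
  -- |m| ≥ 2
  have hm : (2 : ℝ) ≤ |(m : ℝ)| := by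
    have : (2 : ℤ) ≤ |m| := by
      rcases le_total 0 m with h0 | h0
      · rw [abs_of_nonneg h0]; omega
      · rw [abs_of_nonpos h0]; omega
    exact_mod_cast this
  have e1 : (y + m • g₁).fst = (y.fst + m • a) + lp.single 1 k ((m : ℝ) * τ) := by
    have : (m • g₁).fst = m • a + lp.single 1 k ((m : ℝ) * τ) := by
      have h1 : (m • g₁).fst = m • g₁.fst := rfl
      rw [h1, hg₁]
      simp only [WithLp.toLp_fst, smul_add]
      congr 1
      rw [← Int.cast_smul_eq_zsmul ℝ, ← lp.single_smul, smul_eq_mul]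
    rw [WithLp.add_fst, this]; abel
  have e2 : ‖(y + m • g₁).fst‖ = ‖y.fst + m • a‖ + |(m : ℝ) * τ| := by
    rw [e1]
    apply norm_add_single
    have h1 : y.fst k = 0 := hG hy k le_rfl
    have h2 : a k = 0 := ha k le_rfl
    have h3 : (m • a : L1) k = m • (a k) := by
      rw [← Int.cast_smul_eq_zsmul ℝ, lp.coeFn_smul, Pi.smul_apply, Int.cast_smul_eq_zsmul]
    rw [lp.coeFn_add, Pi.add_apply, h1, h3, h2]; simp
  have e3 : 2 * τ ≤ ‖(y + m • g₁).fst‖ := by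
    rw [e2, abs_mul, abs_of_pos (by linarith : (0:ℝ) < τ)]
    have := norm_nonneg (y.fst + m • a)
    nlinarith
  refine ⟨hκτ.trans e3, ?_⟩
  have e4 : ‖(y + m • g₁).fst‖ ≤ ‖y + m • g₁‖ := by
    have := nsq (y + m • g₁)
    exact abs_le_of_sq_le_sq' (by nlinarith [sq_nonneg ‖(y + m • g₁).snd‖]) (norm_nonneg _) |>.2
  linarith

end machinery


section real_case

lemma sqrt3_bounds : (√3 : ℝ) ^ 2 = 3 ∧ 0 < (√3 : ℝ) := by
  refine ⟨Real.sq_sqrt (by norm_num), Real.sqrt_pos.2 (by norm_num)⟩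

lemma rho_sq : (2 / √3 : ℝ) ^ 2 = 4 / 3 := by
  rw [div_pow, sqrt3_bounds.1]; norm_num

lemma one_le_rho : (1 : ℝ) ≤ 2 / √3 := by
  have h1 : (0 : ℝ) < 2 / √3 := div_pos two_pos sqrt3_bounds.2
  have h2 := rho_sq
  nlinarith

lemma step_real (k : ℕ) (G : AddSubgroup (WithLp 2 (L1 × ℝ)))
    (hP : ∀ g ∈ G, g ≠ 0 → 2 ≤ ‖g‖) (h2 : toLp 2 ((0 : L1), (2 : ℝ)) ∈ G) (hG : G ≤ Vk ℝ k)
    (x : WithLp 2 (L1 × ℝ)) (hx : x ∈ Vk ℝ k) :
    ∃ G' : AddSubgroup (WithLp 2 (L1 × ℝ)), G ≤ G' ∧ ((∀ g ∈ G', g ≠ 0 → 2 ≤ ‖g‖) ∧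
      toLp 2 ((0 : L1), (2 : ℝ)) ∈ G') ∧ G' ≤ Vk ℝ (k + 1) ∧ ∃ y ∈ G', ‖x - y‖ ≤ 2 / √3 := by
  by_cases hc : ∃ y ∈ G, ‖x - y‖ ≤ 2 / √3
  · exact ⟨G, le_rfl, ⟨hP, h2⟩, hG.trans (Vk_mono (by omega)), hc⟩
  push Not at hc
  set ρ : ℝ := 2 / √3 with hρ
  have hρ2 : ρ ^ 2 = 4 / 3 := rho_sq
  have hρ1 : 1 ≤ ρ := one_le_rho
  set g : WithLp 2 (L1 × ℝ) := toLp 2 (x.fst + lp.single 1 k ρ, x.snd) with hg
  have key : ∀ y ∈ G, (0 : ℝ) ≤ ‖(g - y).fst‖ ∧ 2 ≤ ‖g - y‖ := by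
    intro y hy
    refine ⟨norm_nonneg _, ?_⟩
    set j : ℤ := round ((x.snd - y.snd) / 2) with hj
    have hy' : y + j • toLp 2 ((0 : L1), (2 : ℝ)) ∈ G := add_mem hy (zsmul_mem h2 j)
    have h1 := hc _ hy'
    have hfst : (y + j • toLp 2 ((0 : L1), (2 : ℝ))).fst = y.fst := by
      have : (j • toLp 2 ((0 : L1), (2 : ℝ))).fst = j • (0 : L1) := rfl
      rw [WithLp.add_fst, this, smul_zero, add_zero]
    have hsnd : (y + j • toLp 2 ((0 : L1), (2 : ℝ))).snd = y.snd + j * 2 := by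
      have : (j • toLp 2 ((0 : L1), (2 : ℝ))).snd = j • (2 : ℝ) := rfl
      rw [WithLp.add_snd, this, zsmul_eq_mul]
    set δ : ℝ := |x.snd - y.snd - j * 2| with hδ
    have hδ1 : δ ≤ 1 := by
      have := abs_sub_round ((x.snd - y.snd) / 2)
      rw [← hj] at this
      have e : x.snd - y.snd - j * 2 = ((x.snd - y.snd) / 2 - j) * 2 := by ring
      rw [hδ, e, abs_mul, abs_two]
      linarith
    have hδ0 : 0 ≤ δ := abs_nonneg _
    have hδ2 : δ ≤ |x.snd - y.snd| := by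
      have := round_le ((x.snd - y.snd) / 2) 0
      rw [← hj] at this
      have e : x.snd - y.snd - j * 2 = ((x.snd - y.snd) / 2 - j) * 2 := by ring
      have e' : x.snd - y.snd = ((x.snd - y.snd) / 2 - (0 : ℤ)) * 2 := by push_cast; ring
      rw [hδ, e, abs_mul, abs_two]
      conv_rhs => rw [e', abs_mul, abs_two]
      linarith
    have hsq : ρ ^ 2 < ‖x.fst - y.fst‖ ^ 2 + δ ^ 2 := by
      have h3 := pow_lt_pow_left₀ h1 (by linarith) (n := 2) (by norm_num)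
      rw [nsq, WithLp.sub_fst, WithLp.sub_snd, hfst, hsnd] at h3
      have e : ‖x.snd - (y.snd + j * 2)‖ = δ := by
        rw [hδ, Real.norm_eq_abs]; congr 1; ring
      rwa [e] at h3
    set r : ℝ := ‖x.fst - y.fst‖ with hr
    have hr0 : 0 ≤ r := norm_nonneg _
    have hr1 : ρ / 2 ≤ r := by
      by_contra hlt
      push Not at hlt
      have : r ^ 2 < (ρ / 2) ^ 2 := pow_lt_pow_left₀ hlt hr0 (by norm_num)
      nlinarith
    have hfst2 : ‖(g - y).fst‖ = r + ρ := by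
      have e : (g - y).fst = (x.fst - y.fst) + lp.single 1 k ρ := by
        rw [WithLp.sub_fst, hg]; simp only [WithLp.toLp_fst]; abel
      rw [e, norm_add_single _ _ _ (by
        rw [lp.coeFn_sub, Pi.sub_apply, hx k le_rfl, hG hy k le_rfl, sub_zero]),
        abs_of_nonneg (by linarith)]
    have hsnd2 : ‖(g - y).snd‖ = |x.snd - y.snd| := by
      rw [WithLp.sub_snd, hg]; simp only [WithLp.toLp_snd, Real.norm_eq_abs]
    have hfin : 4 ≤ ‖g - y‖ ^ 2 := by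
      rw [nsq, hfst2, hsnd2]
      nlinarith [mul_le_mul_of_nonneg_right hr1 (by linarith : (0:ℝ) ≤ ρ),
        pow_le_pow_left₀ hδ0 hδ2 2]
    by_contra hlt
    push Not at hlt
    nlinarith [norm_nonneg (g - y)]
  obtain ⟨hA, hB⟩ := add_gen k G hG 0 ρ hρ1 (by linarith)
    (fun g hg hg0 => ⟨norm_nonneg _, hP g hg hg0⟩) x.fst hx x.snd key
  refine ⟨_, le_sup_left, ⟨fun g hg hg0 => (hA g hg hg0).2, (le_sup_left : G ≤ _) h2⟩, hB, g,
    (le_sup_right : AddSubgroup.zmultiples g ≤ _) (AddSubgroup.mem_zmultiples g), ?_⟩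
  have e : ‖x - g‖ ^ 2 = ρ ^ 2 := by
    rw [nsq]
    have e1 : (x - g).fst = - lp.single 1 k ρ := by
      rw [WithLp.sub_fst, hg]; simp only [WithLp.toLp_fst]; abel
    have e2 : (x - g).snd = 0 := by
      rw [WithLp.sub_snd, hg]; simp
    rw [e1, e2, norm_neg, lp.norm_single (by norm_num), Real.norm_of_nonneg (by linarith)]
    simp
  exact ((pow_left_inj₀ (norm_nonneg _) (by linarith) (by norm_num)).1 e).le

theorem upper_real : ∃ D : AddSubgroup (WithLp 2 (L1 × ℝ)),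
    Separated (D : Set (WithLp 2 (L1 × ℝ))) ∧
      ∀ ε > 0, DenseAt (2 / √3 + ε) (D : Set (WithLp 2 (L1 × ℝ))) := by
  apply recursion (2 / √3)
    (fun G => (∀ g ∈ G, g ≠ 0 → 2 ≤ ‖g‖) ∧ toLp 2 ((0 : L1), (2 : ℝ)) ∈ G)
    (AddSubgroup.zmultiples (toLp 2 ((0 : L1), (2 : ℝ))))
  · refine ⟨?_, AddSubgroup.mem_zmultiples _⟩
    intro g hg hg0
    obtain ⟨m, rfl⟩ := AddSubgroup.mem_zmultiples_iff.1 hg
    have hm : m ≠ 0 := by
      rintro rfl
      simp at hg0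
    have hm1 : (1 : ℝ) ≤ |(m : ℝ)| := by exact_mod_cast Int.one_le_abs hm
    have e : ‖m • toLp 2 ((0 : L1), (2 : ℝ))‖ ^ 2 = (2 * |(m : ℝ)|) ^ 2 := by
      rw [nsq]
      have e1 : (m • toLp 2 ((0 : L1), (2 : ℝ))).fst = m • (0 : L1) := rfl
      have e2 : (m • toLp 2 ((0 : L1), (2 : ℝ))).snd = m • (2 : ℝ) := rfl
      rw [e1, e2, smul_zero, norm_zero, zsmul_eq_mul, norm_mul, Real.norm_eq_abs,
        Real.norm_eq_abs, abs_two]
      ring
    have := (pow_left_inj₀ (norm_nonneg _) (by positivity) (by norm_num)).1 e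
    rw [this]; linarith
  · rw [AddSubgroup.zmultiples_le]
    intro i _
    simp
  · intro G hG; exact hG.1
  · intro k G hG hGV x hx
    exact step_real k G hG.1 hG.2 hGV x hx

end real_case


section general_case

/-- The constant of the general upper bound. -/
noncomputable def rg : ℝ := √((5 - √5) / 2)

lemma q_sq : (√5 : ℝ) ^ 2 = 5 := Real.sq_sqrt (by norm_num)
lemma q_pos : (0 : ℝ) < √5 := Real.sqrt_pos.2 (by norm_num)
lemma q_lt : (√5 : ℝ) < 5 / 2 := by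
  have h := q_sq
  have h' := q_pos
  nlinarith
lemma rg_sq : rg ^ 2 = (5 - √5) / 2 := Real.sq_sqrt (by linarith [q_lt])
lemma rg_nonneg : 0 ≤ rg := Real.sqrt_nonneg _
lemma rg_ge_one : 1 ≤ rg := by
  have h := rg_sq
  have h' := rg_nonneg
  have h2 := q_lt
  nlinarith
lemma i_sq : (1 / √5 : ℝ) ^ 2 = 1 / 5 := by rw [div_pow, q_sq]; norm_num
lemma i_pos : (0 : ℝ) < 1 / √5 := div_pos one_pos q_pos
lemma rg_rel : rg ^ 2 * (1 + 1 / √5) = 2 := by
  rw [rg_sq]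
  have h := q_sq
  have h' := q_pos
  field_simp
  nlinarith
lemma i_lt : (1 / √5 : ℝ) < 1 / 2 := by
  have h := i_sq
  have h' := i_pos
  nlinarith
lemma kappa_ge_one : 1 ≤ 2 * rg * (1 / √5) := by
  have h := i_sq
  have h' := i_pos
  have h2 := rg_sq
  have h3 := rg_nonneg
  have h4 := q_lt
  have h5 : (2 * rg * (1 / √5)) ^ 2 = 4 * rg ^ 2 / 5 := by
    rw [mul_pow, mul_pow, i_sq]; ring
  have h6 : 1 ≤ (2 * rg * (1 / √5)) ^ 2 := by rw [h5, h2]; linarith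
  have h7 : 0 ≤ 2 * rg * (1 / √5) := by positivity
  nlinarith

lemma caseA (r T : ℝ) (hr : rg * (1 / √5) ≤ r) (hT : rg ^ 2 ≤ r ^ 2 + T ^ 2) :
    4 ≤ (r + rg) ^ 2 + T ^ 2 := by
  have h1 := rg_rel
  have h2 := rg_nonneg
  nlinarith [mul_le_mul_of_nonneg_right hr h2]

lemma caseB (R : ℝ) (hR0 : 0 ≤ R) (hR : R < rg * (1 / √5)) :
    ∃ c s T : ℝ, 2 * rg * (1 / √5) ≤ c ∧ 0 ≤ s ∧ c ^ 2 + s ^ 2 = rg ^ 2 ∧ 0 < T ∧
      R ^ 2 + T ^ 2 = rg ^ 2 ∧ (∀ V, T ≤ V → 4 ≤ (R + c) ^ 2 + (V + s) ^ 2) ∧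
      (∀ r W, 2 * rg * (1 / √5) - R ≤ r → rg ^ 2 ≤ r ^ 2 + W ^ 2 → 0 ≤ W →
        4 ≤ (r + c) ^ 2 + (W - s) ^ 2) := by
  have hrel := rg_rel
  have hrg := rg_nonneg
  have hrg1 := rg_ge_one
  have hi2 := i_sq
  have hi0 := i_pos
  set i : ℝ := 1 / √5 with hi
  set ρ := rg with hρ
  have hRR : R ^ 2 < ρ ^ 2 / 5 := by
    have := pow_lt_pow_left₀ hR hR0 (n := 2) (by norm_num)
    rw [mul_pow, hi2] at this
    linarith
  have hpos : 0 < ρ ^ 2 - R ^ 2 := by nlinarith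
  obtain ⟨T, hT0, hT2⟩ : ∃ T : ℝ, 0 < T ∧ T ^ 2 = ρ ^ 2 - R ^ 2 :=
    ⟨√(ρ ^ 2 - R ^ 2), Real.sqrt_pos.2 hpos, Real.sq_sqrt hpos.le⟩
  have hTR : 2 * R ≤ T := by
    by_contra hlt
    push Not at hlt
    have := pow_lt_pow_left₀ hlt hT0.le (n := 2) (by norm_num)
    nlinarith
  have hc0 : 0 ≤ (R + 2 * T) * i := by positivity
  have hs0 : 0 ≤ (T - 2 * R) * i := mul_nonneg (by linarith) hi0.le
  have hcs : ((R + 2 * T) * i) ^ 2 + ((T - 2 * R) * i) ^ 2 = ρ ^ 2 := by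
    rw [mul_pow, mul_pow, hi2]; nlinarith
  have hRT : R + 2 * T ≤ 5 * ρ * i := by
    have h0 : 0 ≤ 5 * ρ * i := by positivity
    have h1 : (R + 2 * T) ^ 2 ≤ (5 * ρ * i) ^ 2 := by
      rw [mul_pow, hi2]; nlinarith [sq_nonneg (2 * R - T)]
    exact (abs_le_of_sq_le_sq' h1 h0).2
  refine ⟨(R + 2 * T) * i, (T - 2 * R) * i, T, ?_, hs0, hcs, hT0, by linarith, ?_, ?_⟩
  · -- κ ≤ c
    have h1 : 2 * ρ ≤ R + 2 * T := by
      have h2 : (2 * ρ) ^ 2 ≤ (R + 2 * T) ^ 2 := by nlinarith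
      exact (abs_le_of_sq_le_sq' h2 (by positivity)).2
    exact mul_le_mul_of_nonneg_right h1 hi0.le
  · intro V hV
    have h1 : (T + (T - 2 * R) * i) ^ 2 ≤ (V + (T - 2 * R) * i) ^ 2 :=
      pow_le_pow_left₀ (by positivity) (by linarith) 2
    have h2 : (R + (R + 2 * T) * i) ^ 2 + (T + (T - 2 * R) * i) ^ 2 = 4 := by
      have e : (R + (R + 2 * T) * i) ^ 2 + (T + (T - 2 * R) * i) ^ 2 =
        R ^ 2 + T ^ 2 + (((R + 2 * T) * i) ^ 2 + ((T - 2 * R) * i) ^ 2) +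
          2 * (R ^ 2 + T ^ 2) * i := by ring
      rw [e, hcs]
      have : R ^ 2 + T ^ 2 = ρ ^ 2 := by linarith
      rw [this]; linarith
    linarith
  · intro r W hr hW hW0
    set c := (R + 2 * T) * i with hc
    set s := (T - 2 * R) * i with hs
    have hr1 : (4 * T - 3 * R) / 5 ≤ r := by linarith
    have hcross : (4 * T - 3 * R) / 5 * c - (4 * R + 3 * T) / 5 * s = ρ ^ 2 * i := by
      have e : (4 * T - 3 * R) / 5 * c - (4 * R + 3 * T) / 5 * s = (R ^ 2 + T ^ 2) * i := by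
        rw [hc, hs]; ring
      rw [e]; congr 1; linarith
    have hr0 : 0 ≤ (4 * T - 3 * R) / 5 := by linarith
    rcases le_or_gt ((4 * R + 3 * T) / 5) W with hWT | hWT
    · have h1 : ((4 * T - 3 * R) / 5 + c) ^ 2 ≤ (r + c) ^ 2 :=
        pow_le_pow_left₀ (by positivity) (by linarith) 2
      have hsT : s ≤ (4 * R + 3 * T) / 5 := by
        have hi1 : i < 1 / 2 := i_lt
        rw [hs]
        nlinarith
      have h2 : ((4 * R + 3 * T) / 5 - s) ^ 2 ≤ (W - s) ^ 2 :=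
        pow_le_pow_left₀ (by linarith) (by linarith) 2
      have e : ((4 * T - 3 * R) / 5 + c) ^ 2 + ((4 * R + 3 * T) / 5 - s) ^ 2 =
          (R ^ 2 + T ^ 2) + (c ^ 2 + s ^ 2) +
            2 * ((4 * T - 3 * R) / 5 * c - (4 * R + 3 * T) / 5 * s) := by ring
      rw [hcs, hcross] at e
      have : R ^ 2 + T ^ 2 = ρ ^ 2 := by linarith
      nlinarith
    · have h1 : (4 * T - 3 * R) / 5 * c ≤ r * c := mul_le_mul_of_nonneg_right hr1 hc0
      have h2 : W * s ≤ (4 * R + 3 * T) / 5 * s := mul_le_mul_of_nonneg_right hWT.le hs0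
      nlinarith

lemma step_gen {Y : Type*} [NormedAddCommGroup Y] [NormedSpace ℝ Y] (k : ℕ)
    (G : AddSubgroup (WithLp 2 (L1 × Y)))
    (hP : ∀ g ∈ G, g ≠ 0 → 2 * rg * (1 / √5) ≤ ‖g.fst‖ ∧ 2 ≤ ‖g‖) (hG : G ≤ Vk Y k)
    (x : WithLp 2 (L1 × Y)) (hx : x ∈ Vk Y k) :
    ∃ G' : AddSubgroup (WithLp 2 (L1 × Y)), G ≤ G' ∧
      (∀ g ∈ G', g ≠ 0 → 2 * rg * (1 / √5) ≤ ‖g.fst‖ ∧ 2 ≤ ‖g‖) ∧
      G' ≤ Vk Y (k + 1) ∧ ∃ y ∈ G', ‖x - y‖ ≤ rg := by
  by_cases hc : ∃ y ∈ G, ‖x - y‖ ≤ rg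
  · exact ⟨G, le_rfl, hP, hG.trans (Vk_mono (by omega)), hc⟩
  push Not at hc
  have hrg := rg_nonneg
  have hrg1 := rg_ge_one
  have hi0 := i_pos
  have hi1 := i_lt
  have hκ1 := kappa_ge_one
  -- common facts
  have hunc : ∀ y ∈ G, rg ^ 2 ≤ ‖x.fst - y.fst‖ ^ 2 + ‖x.snd - y.snd‖ ^ 2 := by
    intro y hy
    have h1 := pow_lt_pow_left₀ (hc y hy) hrg (n := 2) (by norm_num)
    rw [nsq, WithLp.sub_fst, WithLp.sub_snd] at h1
    exact h1.le
  have hfst : ∀ (τ : ℝ) (u : Y), 0 ≤ τ → ∀ y ∈ G,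
      ‖(toLp 2 (x.fst + lp.single 1 k τ, u) - y).fst‖ = ‖x.fst - y.fst‖ + τ := by
    intro τ u hτ y hy
    have e : (toLp 2 (x.fst + lp.single 1 k τ, u) - y).fst = (x.fst - y.fst) + lp.single 1 k τ := by
      rw [WithLp.sub_fst]; simp only [WithLp.toLp_fst]; abel
    rw [e, norm_add_single _ _ _ (by
      rw [lp.coeFn_sub, Pi.sub_apply, hx k le_rfl, hG hy k le_rfl, sub_zero]), abs_of_nonneg hτ]
  have hsnd : ∀ (τ : ℝ) (u : Y) (y : WithLp 2 (L1 × Y)),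
      (toLp 2 (x.fst + lp.single 1 k τ, u) - y).snd = u - y.snd := by
    intro τ u y
    rw [WithLp.sub_snd]; rfl
  have htwo : ∀ w : WithLp 2 (L1 × Y), 4 ≤ ‖w‖ ^ 2 → 2 ≤ ‖w‖ := by
    intro w hw
    by_contra hlt
    push Not at hlt
    nlinarith [norm_nonneg w]
  -- conclusion from a generator
  have hend : ∀ (τ : ℝ) (u : Y), 1 ≤ τ → 2 * rg * (1 / √5) ≤ 2 * τ →
      τ ^ 2 + ‖x.snd - u‖ ^ 2 = rg ^ 2 →
      (∀ y ∈ G, 2 * rg * (1 / √5) ≤ ‖(toLp 2 (x.fst + lp.single 1 k τ, u) - y).fst‖ ∧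
        2 ≤ ‖toLp 2 (x.fst + lp.single 1 k τ, u) - y‖) →
      ∃ G' : AddSubgroup (WithLp 2 (L1 × Y)), G ≤ G' ∧
        (∀ g ∈ G', g ≠ 0 → 2 * rg * (1 / √5) ≤ ‖g.fst‖ ∧ 2 ≤ ‖g‖) ∧
        G' ≤ Vk Y (k + 1) ∧ ∃ y ∈ G', ‖x - y‖ ≤ rg := by
    intro τ u hτ1 hτ2 hτ3 key
    obtain ⟨hA, hB⟩ := add_gen k G hG (2 * rg * (1 / √5)) τ hτ1 hτ2 hP x.fst hx u key
    refine ⟨_, le_sup_left, hA, hB, toLp 2 (x.fst + lp.single 1 k τ, u),
      (le_sup_right : AddSubgroup.zmultiples (toLp 2 (x.fst + lp.single 1 k τ, u)) ≤ _)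
        (AddSubgroup.mem_zmultiples _), ?_⟩
    have e : ‖x - toLp 2 (x.fst + lp.single 1 k τ, u)‖ ^ 2 = rg ^ 2 := by
      rw [nsq]
      have e1 : (x - toLp 2 (x.fst + lp.single 1 k τ, u)).fst = - lp.single 1 k τ := by
        rw [WithLp.sub_fst]; simp only [WithLp.toLp_fst]; abel
      have e2 : (x - toLp 2 (x.fst + lp.single 1 k τ, u)).snd = x.snd - u := by
        rw [WithLp.sub_snd]; rfl
      rw [e1, e2, norm_neg, lp.norm_single (by norm_num), Real.norm_of_nonneg (by linarith)]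
      exact hτ3
    exact ((pow_left_inj₀ (norm_nonneg _) hrg (by norm_num)).1 e).le
  by_cases hv : ∃ v ∈ G, ‖x.fst - v.fst‖ < rg * (1 / √5)
  · obtain ⟨v, hvG, hvR⟩ := hv
    obtain ⟨c, s, T, hcκ, hs0, hcs, hT0, hRT, hB1, hB2⟩ :=
      caseB ‖x.fst - v.fst‖ (norm_nonneg _) hvR
    have hV : T ≤ ‖x.snd - v.snd‖ := by
      have h1 := hunc v hvG
      have h2 : T ^ 2 ≤ ‖x.snd - v.snd‖ ^ 2 := by linarith
      exact (abs_le_of_sq_le_sq' h2 (norm_nonneg _)).2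
    set V : Y := x.snd - v.snd with hVdef
    have hVpos : 0 < ‖V‖ := lt_of_lt_of_le hT0 hV
    set u : Y := (s / ‖V‖) • V with hu
    have hun : ‖u‖ = s := by
      rw [hu, norm_smul, Real.norm_of_nonneg (by positivity)]
      field_simp
    have hc1 : 1 ≤ c := hκ1.trans hcκ
    apply hend c (x.snd + u) hc1 (by linarith)
    · have : x.snd - (x.snd + u) = -u := by abel
      rw [this, norm_neg, hun, hcs]
    · intro y hy
      rw [hfst c _ (by linarith) y hy]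
      refine ⟨by linarith [norm_nonneg (x.fst - y.fst)], htwo _ ?_⟩
      rw [nsq, hfst c _ (by linarith) y hy, hsnd]
      by_cases hyv : y = v
      · subst hyv
        have e : x.snd + u - y.snd = (1 + s / ‖V‖) • V := by
          rw [add_smul, one_smul, ← hu, hVdef]; abel
        have e' : ‖x.snd + u - y.snd‖ = ‖V‖ + s := by
          rw [e, norm_smul, Real.norm_of_nonneg (by positivity)]
          field_simp
        rw [e']
        exact hB1 _ hV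
      · have h1 : 2 * rg * (1 / √5) - ‖x.fst - v.fst‖ ≤ ‖x.fst - y.fst‖ := by
          have h2 := (hP (y - v) (sub_mem hy hvG) (sub_ne_zero.2 hyv)).1
          rw [WithLp.sub_fst] at h2
          have h3 : ‖y.fst - v.fst‖ ≤ ‖x.fst - y.fst‖ + ‖x.fst - v.fst‖ := by
            have : y.fst - v.fst = (x.fst - v.fst) - (x.fst - y.fst) := by abel
            rw [this]
            linarith [norm_sub_le (x.fst - v.fst) (x.fst - y.fst)]
          linarith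
        have h4 := hB2 _ _ h1 (hunc y hy) (norm_nonneg _)
        have h5 : (‖x.snd - y.snd‖ - s) ^ 2 ≤ ‖x.snd + u - y.snd‖ ^ 2 := by
          have e : x.snd + u - y.snd = (x.snd - y.snd) + u := by abel
          have h6 : |‖x.snd - y.snd‖ - ‖u‖| ≤ ‖x.snd + u - y.snd‖ := by
            rw [e]
            have := abs_norm_sub_norm_le (x.snd - y.snd) (-u)
            rwa [norm_neg, sub_neg_eq_add] at this
          rw [hun] at h6
          rw [← sq_abs (‖x.snd - y.snd‖ - s)]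
          exact pow_le_pow_left₀ (abs_nonneg _) h6 2
        linarith
  · push Not at hv
    apply hend rg x.snd hrg1 (by nlinarith)
    · simp
    · intro y hy
      rw [hfst rg _ hrg y hy]
      refine ⟨by nlinarith [norm_nonneg (x.fst - y.fst)], htwo _ ?_⟩
      rw [nsq, hfst rg _ hrg y hy, hsnd]
      exact caseA _ _ (hv y hy) (hunc y hy)

theorem upper_gen {Y : Type*} [NormedAddCommGroup Y] [NormedSpace ℝ Y]
    [TopologicalSpace.SeparableSpace Y] : ∃ D : AddSubgroup (WithLp 2 (L1 × Y)),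
    Separated (D : Set (WithLp 2 (L1 × Y))) ∧
      ∀ ε > 0, DenseAt (√((5 - √5) / 2) + ε) (D : Set (WithLp 2 (L1 × Y))) := by
  apply recursion rg
    (fun G => ∀ g ∈ G, g ≠ 0 → 2 * rg * (1 / √5) ≤ ‖g.fst‖ ∧ 2 ≤ ‖g‖) ⊥
  · intro g hg hg0
    exact absurd (AddSubgroup.mem_bot.1 hg) hg0
  · exact bot_le
  · intro G hG g hg hg0; exact (hG g hg hg0).2
  · intro k G hG hGV x hx
    exact step_gen k G hG hGV x hx

end general_case


section final

lemma bddBelow_gamma (X : Type*) [NormedAddCommGroup X] :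
    BddBelow {ρ : ℝ | ∃ D : Set X, Separated D ∧ DenseAt ρ D} := by
  refine ⟨0, ?_⟩
  rintro ρ ⟨D, -, hD⟩
  obtain ⟨d, -, hd⟩ := hD 0
  exact (norm_nonneg _).trans hd

lemma star_subset (X : Type*) [NormedAddCommGroup X] :
    {ρ : ℝ | ∃ D : AddSubgroup X, Separated (D : Set X) ∧ DenseAt ρ (D : Set X)} ⊆
      {ρ : ℝ | ∃ D : Set X, Separated D ∧ DenseAt ρ D} := by
  rintro ρ ⟨D, h1, h2⟩
  exact ⟨_, h1, h2⟩

lemma gammaStar_le {X : Type*} [NormedAddCommGroup X] (c : ℝ)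
    (h : ∃ D : AddSubgroup X, Separated (D : Set X) ∧ ∀ ε > 0, DenseAt (c + ε) (D : Set X)) :
    gammaStar X ≤ c := by
  obtain ⟨D, h1, h2⟩ := h
  refine le_of_forall_pos_le_add fun ε hε => ?_
  exact csInf_le ((bddBelow_gamma X).mono (star_subset X)) ⟨D, h1, h2 ε hε⟩

lemma gamma_le_star {X : Type*} [NormedAddCommGroup X] (c : ℝ)
    (h : ∃ D : AddSubgroup X, Separated (D : Set X) ∧ ∀ ε > 0, DenseAt (c + ε) (D : Set X)) :
    gamma X ≤ gammaStar X := by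
  obtain ⟨D, h1, h2⟩ := h
  exact csInf_le_csInf (bddBelow_gamma X) ⟨c + 1, D, h1, h2 1 one_pos⟩ (star_subset X)

lemma le_gamma {X : Type*} [NormedAddCommGroup X] (c b : ℝ)
    (h : ∃ D : AddSubgroup X, Separated (D : Set X) ∧ ∀ ε > 0, DenseAt (c + ε) (D : Set X))
    (hb : ∀ (D : Set X) (ρ : ℝ), Separated D → DenseAt ρ D → b ≤ ρ) :
    b ≤ gamma X := by
  obtain ⟨D, h1, h2⟩ := h
  refine le_csInf ⟨c + 1, D, h1, h2 1 one_pos⟩ ?_
  rintro ρ ⟨D', h3, h4⟩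
  exact hb D' ρ h3 h4

instance : Nontrivial L2 := by
  refine ⟨⟨lp.single 2 0 (1 : ℝ), 0, ?_⟩⟩
  intro h
  have := lp.norm_single (E := fun _ : ℕ => ℝ) (p := 2) (by norm_num) 0 (1 : ℝ)
  rw [h] at this
  simp at this

/-- **Main theorem.** `X₁ = ℓ₁ ⊕₂ ℝ` has `γ(X₁) = γ*(X₁) = 2/√3` (Q1), and for
`X₂ = ℓ₁ ⊕₂ ℓ₂` we have `2/√3 ≤ γ(X₂) ≤ γ*(X₂) ≤ √((5-√5)/2)`.  The lower bound holds for
every 2-separated `ρ`-dense set of `ℓ₁ ⊕₂ Y`, `Y` any nonzero real inner product space, and the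
upper bound holds for every separable real normed space `Y`. -/
theorem result :
    (gamma (WithLp 2 (L1 × ℝ)) = 2 / √3 ∧ gammaStar (WithLp 2 (L1 × ℝ)) = 2 / √3) ∧
    (2 / √3 ≤ gamma (WithLp 2 (L1 × L2)) ∧
      gamma (WithLp 2 (L1 × L2)) ≤ gammaStar (WithLp 2 (L1 × L2)) ∧
      gammaStar (WithLp 2 (L1 × L2)) ≤ √((5 - √5) / 2)) ∧
    (∀ (Y : Type) [NormedAddCommGroup Y] [InnerProductSpace ℝ Y] [Nontrivial Y]
      (D : Set (WithLp 2 (L1 × Y))) (ρ : ℝ), Separated D → DenseAt ρ D → 2 / √3 ≤ ρ) ∧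
    (∀ (Y : Type) [NormedAddCommGroup Y] [NormedSpace ℝ Y] [TopologicalSpace.SeparableSpace Y],
      gammaStar (WithLp 2 (L1 × Y)) ≤ √((5 - √5) / 2)) := by
  have hA := gamma_le_star (2 / √3) upper_real
  have hB := gammaStar_le (2 / √3) upper_real
  have hC := le_gamma (2 / √3) (2 / √3) upper_real (fun D ρ => lower (Y := ℝ) D ρ)
  refine ⟨⟨le_antisymm (hA.trans hB) hC, le_antisymm hB (hC.trans hA)⟩, ⟨?_, ?_, ?_⟩, ?_, ?_⟩
  · exact le_gamma _ _ (upper_gen (Y := L2)) (fun D ρ => lower (Y := L2) D ρ)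
  · exact gamma_le_star _ (upper_gen (Y := L2))
  · exact gammaStar_le _ (upper_gen (Y := L2))
  · intro Y _ _ _ D ρ h1 h2
    exact lower D ρ h1 h2
  · intro Y _ _ _
    exact gammaStar_le _ (upper_gen (Y := Y))

end final

end Pool.Agent.Results.MP_d84bc5_an.PackingCovering
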